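import Pool.Agent.R539.SD.Defs
import Pool.Agent.H550R2.Iso.Raw

/-!
# The problems `STAR_p` are pairwise different, and only countably many of them are in NP
-/

set_option autoImplicit false

namespace Pool.Agent.R554.SDX

open Pool.Agent.NPC Pool.Agent.R539.SD

/-- The circulant digraph `i → i + j`, `1 ≤ j ≤ k - d`, on `ℤ/k`. -/
def circ (k d : ℕ) : Dg :=
  (List.range k).flatMap fun i => (List.range (k - d)).map fun j =>
    (((0, 0, i) : Vx), ((0, 0, (i + j + 1) % k) : Vx))

theorem mem_circ {k d : ℕ} {u v : Vx} : (u, v) ∈ circ k d ↔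
    ∃ i < k, ∃ j < k - d, u = (0, 0, i) ∧ v = (0, 0, (i + j + 1) % k) := by
  simp only [circ, List.mem_flatMap, List.mem_range, List.mem_map, Prod.mk.injEq]
  constructor
  · rintro ⟨i, hi, j, hj, h1, h2⟩
    exact ⟨i, hi, j, hj, h1.symm, h2.symm⟩
  · rintro ⟨i, hi, j, hj, h1, h2⟩
    exact ⟨i, hi, j, hj, h1.symm, h2.symm⟩

theorem loopless_circ {k d : ℕ} (hd : 1 ≤ d) (hk : d < k) : Loopless (circ k d) := by
  rintro ⟨u, v⟩ he huv
  obtain ⟨i, hi, j, hj, h1, h2⟩ := mem_circ.1 he
  simp only at huv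
  rw [h1, h2] at huv
  simp only [Prod.mk.injEq, true_and] at huv
  rcases Nat.lt_or_ge (i + j + 1) k with h | h
  · rw [Nat.mod_eq_of_lt h] at huv
    omega
  · rw [Nat.mod_eq_sub_mod h, Nat.mod_eq_of_lt (by omega)] at huv
    omega

theorem col_circ {k d : ℕ} (hd : 1 ≤ d) (hk : d < k) :
    IsCol (circ k d) k d (fun v => (v.2.2 : ZMod k)) := by
  have : NeZero k := ⟨by omega⟩
  intro i v hv
  have key : ∀ a b : Vx, ((a, b) ∈ circ k d ∧
      a ∈ {v : Vx | ∃ t : ℕ, t < d ∧ (v.2.2 : ZMod k) = i + (t : ZMod k)} ∧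
      b ∈ {v : Vx | ∃ t : ℕ, t < d ∧ (v.2.2 : ZMod k) = i + (t : ZMod k)}) →
      ((a.2.2 : ZMod k) - i).val < ((b.2.2 : ZMod k) - i).val := by
    rintro a b ⟨hab, ⟨t, ht, hta⟩, -⟩
    obtain ⟨x, hx, j, hj, h1, h2⟩ := mem_circ.1 hab
    have e1 : ((a.2.2 : ZMod k) - i) = (t : ZMod k) := by rw [hta]; ring
    have e2 : ((b.2.2 : ZMod k) - i) = ((t + j + 1 : ℕ) : ZMod k) := by
      have : ((b.2.2 : ℕ) : ZMod k) = (a.2.2 : ZMod k) + ((j + 1 : ℕ) : ZMod k) := by
        rw [h1, h2]
        simp only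
        rw [ZMod.natCast_mod]
        push_cast
        ring
      rw [this, hta]
      push_cast
      ring
    rw [e1, e2, ZMod.val_natCast, ZMod.val_natCast, Nat.mod_eq_of_lt (by omega),
      Nat.mod_eq_of_lt (by omega)]
    omega
  have : ∀ a b : Vx, Relation.TransGen (fun a b : Vx => (a, b) ∈ circ k d ∧
      a ∈ {v : Vx | ∃ t : ℕ, t < d ∧ (v.2.2 : ZMod k) = i + (t : ZMod k)} ∧
      b ∈ {v : Vx | ∃ t : ℕ, t < d ∧ (v.2.2 : ZMod k) = i + (t : ZMod k)}) a b →
      ((a.2.2 : ZMod k) - i).val < ((b.2.2 : ZMod k) - i).val := by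
    intro a b h
    induction h with
    | single h => exact key _ _ h
    | tail _ h ih => exact ih.trans (key _ _ h)
  exact absurd (this v v hv) (lt_irrefl _)

/-- A set in which every vertex has a successor is not acyclic. -/
theorem not_acyc {E : Dg} {X : Set Vx} (A : Finset ℕ) (hA : A.Nonempty)
    (hX : ∀ a ∈ A, ((0, 0, a) : Vx) ∈ X)
    (hs : ∀ a ∈ A, ∃ b ∈ A, (((0, 0, a) : Vx), ((0, 0, b) : Vx)) ∈ E) : ¬ Acyc E X := by
  intro hac
  choose! s hs1 hs2 using hs
  obtain ⟨a₀, ha₀⟩ := hA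
  have hit : ∀ n, s^[n] a₀ ∈ A := by
    intro n
    induction n with
    | zero => exact ha₀
    | succ n ih => rw [Function.iterate_succ_apply']; exact hs1 _ ih
  obtain ⟨m, n, hmn, he⟩ := Finite.exists_ne_map_eq_of_infinite
    (fun n : ℕ => (⟨s^[n] a₀, hit n⟩ : A))
  have he' : s^[m] a₀ = s^[n] a₀ := congrArg Subtype.val he
  have step : ∀ n, (fun a b : Vx => (a, b) ∈ E ∧ a ∈ X ∧ b ∈ X) (0, 0, s^[n] a₀)
      (0, 0, s^[n + 1] a₀) := by
    intro n
    refine ⟨?_, hX _ (hit _), hX _ (hit _)⟩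
    rw [Function.iterate_succ_apply']
    exact hs2 _ (hit n)
  have walk : ∀ m l : ℕ, Relation.TransGen (fun a b : Vx => (a, b) ∈ E ∧ a ∈ X ∧ b ∈ X)
      (0, 0, s^[m] a₀) (0, 0, s^[m + l + 1] a₀) := by
    intro m l
    induction l with
    | zero => exact Relation.TransGen.single (step m)
    | succ l ih => exact ih.tail (step (m + l + 1))
  rcases Nat.lt_or_gt_of_ne hmn with h | h
  · obtain ⟨l, rfl⟩ : ∃ l, n = m + l + 1 := ⟨n - m - 1, by omega⟩
    have := walk m l
    rw [← he'] at this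
    exact hac _ this
  · obtain ⟨l, rfl⟩ : ∃ l, m = n + l + 1 := ⟨m - n - 1, by omega⟩
    have := walk n l
    rw [he'] at this
    exact hac _ this

theorem card_le {k d : ℕ} (hd : 1 ≤ d) (hk : d < k) (X : Set Vx) (hX : Acyc (circ k d) X)
    (A : Finset ℕ) (hA : A ⊆ Finset.range k) (hAX : ∀ a ∈ A, ((0, 0, a) : Vx) ∈ X) :
    A.card ≤ d := by
  by_contra hcon
  push Not at hcon
  refine not_acyc A (Finset.card_pos.1 (by omega)) hAX ?_ hX
  intro a ha
  have hak := Finset.mem_range.1 (hA ha)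
  by_contra hno
  push Not at hno
  have h1 : ((Finset.range (k - d)).image fun j => (a + j + 1) % k) ⊆ Finset.range k \ A := by
    intro x hx
    obtain ⟨j, hj, rfl⟩ := Finset.mem_image.1 hx
    rw [Finset.mem_sdiff, Finset.mem_range]
    refine ⟨Nat.mod_lt _ (by omega), fun h => hno _ h ?_⟩
    exact mem_circ.2 ⟨a, hak, j, Finset.mem_range.1 hj, rfl, rfl⟩
  have h2 := Finset.card_le_card h1
  rw [Finset.card_image_of_injOn, Finset.card_range, Finset.card_sdiff_of_subset hA,
    Finset.card_range] at h2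
  · omega
  · intro x hx y hy hxy
    have hx := Finset.mem_range.1 (Finset.mem_coe.1 hx)
    have hy := Finset.mem_range.1 (Finset.mem_coe.1 hy)
    simp only at hxy
    have : (a + 1 + x) ≡ (a + 1 + y) [MOD k] := by
      unfold Nat.ModEq
      rw [show a + 1 + x = a + x + 1 by ring, show a + 1 + y = a + y + 1 by ring]
      exact hxy
    have := Nat.ModEq.add_left_cancel' (a + 1) this
    exact Nat.ModEq.eq_of_lt_of_lt this (by omega) (by omega)

theorem lower {k d k' d' : ℕ} (hd : 1 ≤ d) (hk : d < k) (hd' : 1 ≤ d') (hk' : d' ≤ k')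
    (c : Vx → ZMod k') (hc : IsCol (circ k d) k' d' c) : k * d' ≤ k' * d := by
  classical
  have : NeZero k' := ⟨by omega⟩
  let S : ZMod k' → Finset ℕ := fun i =>
    (Finset.range k).filter fun a => ∃ t : ℕ, t < d' ∧ c (0, 0, a) = i + (t : ZMod k')
  have h1 : ∀ i, (S i).card ≤ d := fun i => card_le hd hk _ (hc i) (S i)
    (Finset.filter_subset _ _) (fun a ha => (Finset.mem_filter.1 ha).2)
  have h2 : ∑ i, (S i).card = k * d' := by
    have : ∀ i, (S i).card = ∑ a ∈ Finset.range k,
        if ∃ t : ℕ, t < d' ∧ c (0, 0, a) = i + (t : ZMod k') then 1 else 0 := by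
      intro i
      rw [Finset.card_filter]
    simp only [this]
    rw [Finset.sum_comm]
    have h3 : ∀ a ∈ Finset.range k, (∑ i : ZMod k',
        if ∃ t : ℕ, t < d' ∧ c (0, 0, a) = i + (t : ZMod k') then 1 else 0) = d' := by
      intro a _
      rw [← Finset.card_filter]
      have : (Finset.univ.filter fun i : ZMod k' => ∃ t : ℕ, t < d' ∧
          c (0, 0, a) = i + (t : ZMod k')) =
          (Finset.range d').image fun t : ℕ => c (0, 0, a) - (t : ZMod k') := by
        ext i
        simp only [Finset.mem_filter, Finset.mem_univ, true_and, Finset.mem_image,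
          Finset.mem_range]
        constructor
        · rintro ⟨t, ht, h⟩
          exact ⟨t, ht, by rw [h]; ring⟩
        · rintro ⟨t, ht, h⟩
          exact ⟨t, ht, by rw [← h]; ring⟩
      rw [this, Finset.card_image_of_injOn, Finset.card_range]
      intro x hx y hy hxy
      have hx := Finset.mem_range.1 (Finset.mem_coe.1 hx)
      have hy := Finset.mem_range.1 (Finset.mem_coe.1 hy)
      simp only [sub_right_inj] at hxy
      have := (ZMod.natCast_eq_natCast_iff x y k').1 hxy
      exact Nat.ModEq.eq_of_lt_of_lt this (by omega) (by omega)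
    rw [Finset.sum_congr rfl h3, Finset.sum_const, Finset.card_range, smul_eq_mul]
  calc k * d' = ∑ i, (S i).card := h2.symm
    _ ≤ ∑ _i : ZMod k', d := Finset.sum_le_sum fun i _ => h1 i
    _ = k' * d := by rw [Finset.sum_const, Finset.card_univ, ZMod.card, smul_eq_mul]

theorem starNum_circ {k d : ℕ} (hd : 1 ≤ d) (hk : d < k) :
    starNum (circ k d) = (k : ℝ) / d := by
  refine IsLeast.csInf_eq ⟨⟨k, d, hd, hk.le, rfl, _, col_circ hd hk⟩, ?_⟩
  rintro x ⟨k', d', hd', hk', rfl, c, hc⟩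
  have h := lower hd hk hd' hk' c hc
  rw [div_le_div_iff₀ (by exact_mod_cast (by omega : 0 < d)) (by exact_mod_cast (by omega : 0 < d'))]
  exact_mod_cast h

/-- Between two reals above one there is the number of a digraph. -/
theorem exists_between' {p q : ℝ} (hp : 1 ≤ p) (hpq : p < q) :
    ∃ E : Dg, Loopless E ∧ p < starNum E ∧ starNum E < q := by
  obtain ⟨r, h1, h2⟩ := exists_rat_btwn hpq
  have hr : (1 : ℚ) < r := by exact_mod_cast lt_of_le_of_lt hp h1
  have hn : (0 : ℤ) < r.num := Rat.num_pos.2 (by linarith)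
  obtain ⟨k, hk⟩ := Int.eq_ofNat_of_zero_le hn.le
  have e : (r : ℚ) = (k : ℚ) / r.den := by
    rw [← Rat.num_div_den r]
    congr 1
    · rw [hk]
      simp [Rat.num_div_den]
    · simp [Rat.num_div_den]
  have hlt : r.den < k := by
    have hd : (0 : ℚ) < r.den := by exact_mod_cast r.den_pos
    rw [e, lt_div_iff₀ hd, one_mul] at hr
    exact_mod_cast hr
  have e' : ((r : ℚ) : ℝ) = (k : ℝ) / r.den := by
    have := congrArg (fun x : ℚ => (x : ℝ)) e
    simp only [Rat.cast_div, Rat.cast_natCast] at this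
    exact this
  refine ⟨circ k r.den, loopless_circ r.den_pos hlt, ?_, ?_⟩
  · rw [starNum_circ r.den_pos hlt, ← e']
    exact h1
  · rw [starNum_circ r.den_pos hlt, ← e']
    exact h2

theorem star_inj {p q : ℝ} (hp : 1 ≤ p) (hpq : p < q) : lang (Star p) ≠ lang (Star q) := by
  intro h
  obtain ⟨E, h0, h1, h2⟩ := exists_between' hp hpq
  have : bits E ∈ lang (Star q) := ⟨E, rfl, h0, h2.le⟩
  rw [← h] at this
  obtain ⟨E', h3, -, h4⟩ := this
  rw [bits_injective h3] at h4
  linarith

theorem countable_poly : Countable (Polynomial ℕ) := by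
  have : Countable (ℕ →₀ ℕ) := inferInstance
  refine Function.Injective.countable (f := fun p : Polynomial ℕ =>
    (Finsupp.ofSupportFinite (fun n => p.coeff n) (Set.Finite.subset p.support.finite_toSet
      (by intro n hn; simpa using hn)) : ℕ →₀ ℕ)) ?_
  intro p q h
  ext n
  exact DFunLike.congr_fun h n

/-- Only countably many languages are in NP. -/
theorem countable_NP : {L : Set (List Bool) | InNP L}.Countable := by
  haveI h1 : Countable {V : List Bool → List Bool | PolyTime V} :=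
    Pool.Agent.NPC.PIso.countable_polyTime.to_subtype
  haveI h2 := countable_poly
  refine Set.Countable.mono (s₂ := Set.range fun x : {V : List Bool → List Bool | PolyTime V} ×
    Polynomial ℕ => {z : List Bool | ∃ w : List Bool, w.length ≤ x.2.eval z.length ∧
      x.1.1 (pairBits z w) = [true]}) ?_ (Set.countable_range _)
  rintro L ⟨V, p, hV, hL⟩
  exact ⟨(⟨V, hV⟩, p), Set.ext fun z => (hL z).symm⟩

/-- For all but countably many real `p > 1` the problem `STAR_p` is not in NP. -/
theorem sNN : {p : ℝ | 1 ≤ p ∧ InNPP (Star p)}.Countable := by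
  refine Set.MapsTo.countable_of_injOn (f := fun p : ℝ => lang (Star p))
    (t := {L | InNP L}) (fun p hp => hp.2) ?_ countable_NP
  intro p hp q hq h
  rcases lt_trichotomy p q with h' | h' | h'
  · exact absurd h (star_inj hp.1 h')
  · exact h'
  · exact absurd h.symm (star_inj hq.1 h')

/-- Some non-integer `p > 2` for which `STAR_p` is not in NP. -/
theorem exists_not_NP : ∃ p : ℝ, 2 < p ∧ p < 3 ∧ ¬ InNPP (Star p) := by
  by_contra h
  push Not at h
  have h1 : Set.Ioo (2 : ℝ) 3 ⊆ {p : ℝ | 1 ≤ p ∧ InNPP (Star p)} :=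
    fun p hp => ⟨by linarith [hp.1], h p hp.1 hp.2⟩
  have h2 := sNN.mono h1
  have h3 := Cardinal.mk_Ioo_real (show (2 : ℝ) < 3 by norm_num)
  have h4 := Cardinal.le_aleph0_iff_set_countable.2 h2
  rw [h3] at h4
  exact absurd h4 (not_le.2 Cardinal.aleph0_lt_continuum)

end Pool.Agent.R554.SDX
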