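import Pool.Agent.R554.SDX.Stm

/-!
# Completeness of the certificate
-/

set_option autoImplicit false

namespace Pool.Agent.R554.SDX

open Pool.Agent.NPC Pool.Agent.R539.SD

theorem length_ends (E : Dg) : (ends E).length = 2 * E.length := by
  unfold ends
  induction E with
  | nil => rfl
  | cons e E ih =>
    rw [List.flatMap_cons, List.length_append, ih]
    simp only [List.length_cons, List.length_nil]
    omega

theorem mem_ends {E : Dg} {e : Vx × Vx} (he : e ∈ E) : e.1 ∈ ends E ∧ e.2 ∈ ends E := by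
  unfold ends
  constructor
  · exact List.mem_flatMap.2 ⟨e, he, by simp⟩
  · exact List.mem_flatMap.2 ⟨e, he, by simp⟩

theorem inW_mem {k d i : ℕ} (hk : 0 < k) (hi : i < k) (a : ZMod k)
    (h : inW k d i a.val = true) : ∃ t : ℕ, t < d ∧ a = (i : ZMod k) + (t : ZMod k) := by
  have : NeZero k := ⟨by omega⟩
  unfold inW at h
  refine ⟨(a.val + (k - i)) % k, of_decide_eq_true h, ?_⟩
  rw [ZMod.natCast_mod, Nat.cast_add, Nat.cast_sub hi.le, ZMod.natCast_self, ZMod.natCast_val,
    ZMod.cast_id', id_eq]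
  ring

theorem t_v2 : SV2 := by
  classical
  rintro k d E hd hk hL ⟨c, hc⟩
  have hk0 : 0 < k := by omega
  have : NeZero k := ⟨by omega⟩
  obtain ⟨L, hLd⟩ : ∃ L : List Vx, L = ends E := ⟨_, rfl⟩
  have hlen : L.length = 2 * E.length := by rw [hLd]; exact length_ends E
  obtain ⟨R, hR⟩ : ∃ R : ℕ → Vx → Vx → Prop, R = fun (i : ℕ) (a b : Vx) => (a, b) ∈ E ∧
      a ∈ {v : Vx | ∃ t : ℕ, t < d ∧ c v = (i : ZMod k) + (t : ZMod k)} ∧
      b ∈ {v : Vx | ∃ t : ℕ, t < d ∧ c v = (i : ZMod k) + (t : ZMod k)} := ⟨_, rfl⟩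
  obtain ⟨rk, hrk⟩ : ∃ rk : ℕ → Vx → ℕ, rk = fun i v =>
      (L.toFinset.filter (fun u => Relation.TransGen (R i) u v)).card := ⟨_, rfl⟩
  have rk_le : ∀ i v, rk i v ≤ 2 * E.length := by
    intro i v
    rw [hrk, ← hlen]
    exact (Finset.card_filter_le _ _).trans (List.toFinset_card_le L)
  have rk_lt : ∀ i u v, R i u v → u ∈ L → rk i u < rk i v := by
    intro i u v huv hu
    rw [hrk]
    apply Finset.card_lt_card
    rw [Finset.ssubset_iff_of_subset]
    · refine ⟨u, ?_, ?_⟩
      · rw [Finset.mem_filter]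
        exact ⟨List.mem_toFinset.2 hu, Relation.TransGen.single huv⟩
      · rw [Finset.mem_filter]
        rintro ⟨-, h⟩
        rw [hR] at h
        exact hc (i : ZMod k) u h
    · intro x hx
      rw [Finset.mem_filter] at hx ⊢
      exact ⟨hx.1, hx.2.tail huv⟩
  obtain ⟨f, hf⟩ : ∃ f : ℕ → ℕ, f = fun m => if m % (k + 1) = k then
      (c (L.getD (m / (k + 1)) (0, 0, 0))).val else rk (m % (k + 1)) (L.getD (m / (k + 1)) (0, 0, 0)) := ⟨_, rfl⟩
  obtain ⟨w, hw⟩ : ∃ w : List ℕ, w = (List.range (L.length * (k + 1))).map f := ⟨_, rfl⟩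
  have hent : ∀ v ∈ ends E, ∀ j, j ≤ k → ent k E w v j = if j = k then (c v).val else rk j v := by
    intro v hv j hj
    have h1 : index (ends E) v < L.length := by rw [hLd]; exact index_lt hv
    have h2 : index (ends E) v * (k + 1) + j < L.length * (k + 1) := by nlinarith
    have h3 : (index (ends E) v * (k + 1) + j) / (k + 1) = index (ends E) v := by
      rw [Nat.add_comm, Nat.add_mul_div_right _ _ (by omega), Nat.div_eq_of_lt (by omega), Nat.zero_add]
    have h4 : (index (ends E) v * (k + 1) + j) % (k + 1) = j := by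
      rw [Nat.add_comm, Nat.add_mul_mod_self_right, Nat.mod_eq_of_lt (by omega)]
    have h5 : L.getD (index (ends E) v) (0, 0, 0) = v := by
      rw [List.getD_eq_getElem?_getD, hLd, getElem?_index hv]
      rfl
    unfold ent
    rw [hw, List.getD_eq_getElem?_getD, List.getElem?_map, List.getElem?_range h2]
    simp only [Option.map_some, Option.getD_some]
    rw [hf]
    simp only [h3, h4, h5]
  refine ⟨w, ?_, ?_, ?_⟩
  · rw [hw, List.length_map, List.length_range, hlen]
  · intro x hx
    rw [hw] at hx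
    obtain ⟨m, -, rfl⟩ := List.mem_map.1 hx
    rw [hf]
    simp only
    split_ifs with h
    · have := ZMod.val_lt (c (L.getD (m / (k + 1)) (0, 0, 0)))
      omega
    · have := rk_le (m % (k + 1)) (L.getD (m / (k + 1)) (0, 0, 0))
      omega
  · unfold chk
    rw [List.all_eq_true]
    intro e he
    obtain ⟨he1, he2⟩ := mem_ends he
    rw [Bool.and_eq_true]
    constructor
    · rw [Bool.not_eq_true', decide_eq_false_iff_not]
      exact hL e he
    · rw [List.all_eq_true]
      intro i hi
      rw [List.mem_range] at hi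
      rw [hent e.1 he1 k le_rfl, hent e.2 he2 k le_rfl, hent e.1 he1 i hi.le, hent e.2 he2 i hi.le,
        if_pos rfl, if_pos rfl, if_neg hi.ne, if_neg hi.ne]
      rw [Bool.or_eq_true]
      by_cases h : (inW k d i (c e.1).val && inW k d i (c e.2).val) = true
      · right
        rw [Bool.and_eq_true] at h
        apply decide_eq_true
        refine rk_lt i e.1 e.2 ?_ (by rw [hLd]; exact he1)
        rw [hR]
        exact ⟨he, inW_mem hk0 hi _ h.1, inW_mem hk0 hi _ h.2⟩
      · left
        rw [Bool.not_eq_true'] 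
        exact Bool.eq_false_iff.2 h

end Pool.Agent.R554.SDX
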