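import Pool.Agent.R554.SDX.Stm

set_option autoImplicit false

namespace Pool.Agent.R554.SDX

open Pool.Agent.NPC Pool.Agent.R539.SD

theorem v34_poly_ends {α : Type} [TEnc α] {f : α → Dg} (hf : NPC.Poly f) :
    NPC.Poly (fun a => ends (f a)) := by
  have h : NPC.Poly ends := by
    unfold ends
    fun_prop
  exact h.comp hf

theorem v34_poly_ent {α : Type} [TEnc α] (k : ℕ) {f : α → Dg} {w : α → List ℕ} {v : α → Vx}
    {j : α → ℕ} (hf : NPC.Poly f) (hw : NPC.Poly w) (hv : NPC.Poly v) (hj : NPC.Poly j) :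
    NPC.Poly (fun a => ent k (f a) (w a) (v a) (j a)) := by
  unfold ent
  exact NPC.Poly.getD hw (NPC.Poly.add (NPC.Poly.mul (NPC.Poly.index (v34_poly_ends hf) hv)
    (NPC.Poly.const _)) hj) (NPC.Poly.const _)

theorem v34_poly_inW {α : Type} [TEnc α] (k d : ℕ) {i a : α → ℕ} (hi : NPC.Poly i)
    (ha : NPC.Poly a) : NPC.Poly (fun x => inW k d (i x) (a x)) := by
  unfold inW
  exact NPC.Poly.decide_lt (NPC.Poly.mod (NPC.Poly.add ha (NPC.Poly.sub (NPC.Poly.const _) hi))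
    (NPC.Poly.const _)) (NPC.Poly.const _)

theorem t_v3 : SV3 := by
  intro k d
  unfold chk
  refine NPC.Poly.all (l := fun x : Dg × List ℕ => x.1)
    (p := fun (x : Dg × List ℕ) (e : Vx × Vx) => !(decide (e.1 = e.2)) &&
      (List.range k).all fun i =>
        !(inW k d i (ent k x.1 x.2 e.1 k) && inW k d i (ent k x.1 x.2 e.2 k)) ||
          decide (ent k x.1 x.2 e.1 i < ent k x.1 x.2 e.2 i))
    (NPC.Poly.fst NPC.Poly.id) ?_
  refine NPC.Poly.and (NPC.Poly.not (NPC.Poly.decide_eq (by fun_prop) (by fun_prop))) ?_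
  refine NPC.Poly.all (l := fun _ : (Dg × List ℕ) × (Vx × Vx) => List.range k)
    (p := fun (y : (Dg × List ℕ) × (Vx × Vx)) (i : ℕ) =>
        !(inW k d i (ent k y.1.1 y.1.2 y.2.1 k) && inW k d i (ent k y.1.1 y.1.2 y.2.2 k)) ||
          decide (ent k y.1.1 y.1.2 y.2.1 i < ent k y.1.1 y.1.2 y.2.2 i))
    (NPC.Poly.const _) ?_
  have hE : NPC.Poly (fun z : ((Dg × List ℕ) × (Vx × Vx)) × ℕ => z.1.1.1) := by fun_prop
  have hw : NPC.Poly (fun z : ((Dg × List ℕ) × (Vx × Vx)) × ℕ => z.1.1.2) := by fun_prop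
  have h1 : NPC.Poly (fun z : ((Dg × List ℕ) × (Vx × Vx)) × ℕ => z.1.2.1) := by fun_prop
  have h2 : NPC.Poly (fun z : ((Dg × List ℕ) × (Vx × Vx)) × ℕ => z.1.2.2) := by fun_prop
  have hi : NPC.Poly (fun z : ((Dg × List ℕ) × (Vx × Vx)) × ℕ => z.2) := by fun_prop
  have hk : NPC.Poly (fun _ : ((Dg × List ℕ) × (Vx × Vx)) × ℕ => k) := NPC.Poly.const k
  exact NPC.Poly.or (NPC.Poly.not (NPC.Poly.and
      (v34_poly_inW k d hi (v34_poly_ent k hE hw h1 hk))
      (v34_poly_inW k d hi (v34_poly_ent k hE hw h2 hk))))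
    (NPC.Poly.decide_lt (v34_poly_ent k hE hw h1 hi) (v34_poly_ent k hE hw h2 hi))

theorem t_v4 : SV4 := by
  intro k
  refine ⟨Polynomial.C (2 * (k + 1)) * Polynomial.X *
    (Polynomial.C 8 * Polynomial.X + Polynomial.C (4 * k + 2)) + 1, ?_⟩
  intro E w hl hx
  have h1 : ∀ a ∈ w, sz a ≤ 8 * sz E + 4 * k + 1 := by
    intro a ha
    have h2 := hx a ha
    have h3 := sz_nat_le a
    have h4 : a.size ≤ a := Nat.size_le.2 Nat.lt_two_pow_self
    have h5 := length_lt_sz E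
    omega
  have h6 := sz_le_length_mul w _ h1
  have h7 := length_lt_sz E
  have h8 : w.length ≤ 2 * (k + 1) * sz E := by
    have : 2 * E.length * (k + 1) ≤ 2 * (k + 1) * sz E := by nlinarith
    omega
  have h9 : w.length * (8 * sz E + 4 * k + 1 + 1) ≤
      2 * (k + 1) * sz E * (8 * sz E + 4 * k + 1 + 1) := Nat.mul_le_mul_right _ h8
  simp only [Polynomial.eval_add, Polynomial.eval_mul, Polynomial.eval_C, Polynomial.eval_X,
    Polynomial.eval_one]
  have h10 : 8 * sz E + 4 * k + 1 + 1 = 8 * sz E + (4 * k + 2) := by ring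
  rw [h10] at h9 h6
  omega

end Pool.Agent.R554.SDX
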