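import Pool.Agent.R554.SDX.Stm

/-!
# The infimum in the definition of the star dichromatic number is attained for rational bounds
-/

set_option autoImplicit false

namespace Pool.Agent.R554.SDX

open Pool.Agent.NPC Pool.Agent.R539.SD Filter Topology

theorem cyc_sub {E : Dg} {Y : Set Vx} (h : Cyc E Y) : ∀ v ∈ Y, v ∈ ends E := by
  intro v hv
  obtain ⟨u, -, hu⟩ := h.2.1 v hv
  exact List.mem_flatMap.2 ⟨_, hu, by simp⟩

theorem cyc_walk {E : Dg} {Y : Set Vx} (h : Cyc E Y) :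
    ∃ v, Relation.TransGen (fun a b : Vx => (a, b) ∈ E ∧ a ∈ Y ∧ b ∈ Y) v v := by
  obtain ⟨a₀, ha₀⟩ := h.1
  have hs := h.2.1
  choose! s hs1 hs2 using hs
  have hit : ∀ n, s^[n] a₀ ∈ Y := by
    intro n
    induction n with
    | zero => exact ha₀
    | succ n ih => rw [Function.iterate_succ_apply']; exact hs1 _ ih
  obtain ⟨m, n, hmn, he⟩ := Finite.exists_ne_map_eq_of_infinite
    (fun n : ℕ => (⟨s^[n] a₀, List.mem_toFinset.2 (cyc_sub h _ (hit n))⟩ : (ends E).toFinset))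
  have he' : s^[m] a₀ = s^[n] a₀ := congrArg Subtype.val he
  have step : ∀ n, (fun a b : Vx => (a, b) ∈ E ∧ a ∈ Y ∧ b ∈ Y) (s^[n] a₀) (s^[n + 1] a₀) := by
    intro n
    refine ⟨?_, hit _, hit _⟩
    rw [Function.iterate_succ_apply']
    exact hs2 _ (hit n)
  have walk : ∀ m l : ℕ, Relation.TransGen (fun a b : Vx => (a, b) ∈ E ∧ a ∈ Y ∧ b ∈ Y)
      (s^[m] a₀) (s^[m + l + 1] a₀) := by
    intro m l
    induction l with
    | zero => exact Relation.TransGen.single (step m)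
    | succ l ih => exact ih.tail (step (m + l + 1))
  rcases Nat.lt_or_gt_of_ne hmn with h | h
  · obtain ⟨l, rfl⟩ : ∃ l, n = m + l + 1 := ⟨n - m - 1, by omega⟩
    have := walk m l
    rw [← he'] at this
    exact ⟨_, this⟩
  · obtain ⟨l, rfl⟩ : ∃ l, m = n + l + 1 := ⟨m - n - 1, by omega⟩
    have := walk n l
    rw [he'] at this
    exact ⟨_, this⟩

theorem cyc_hit (hHIT : SHIT) {E : Dg} {k d : ℕ} {c : Vx → ZMod k} (hd : 1 ≤ d) (hk : d ≤ k)
    (hc : IsCol E k d c) {Y : Set Vx} (h : Cyc E Y) : Hit k (k - d) (fun v => (c v).val) Y := by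
  obtain ⟨v, hv⟩ := cyc_walk h
  exact hHIT E k d c hd hk hc Y v hv

theorem next_of_hit {k g : ℕ} (hg : g ≤ k) {C : Vx → ℕ} (hC : ∀ v, C v < k) {Y : Set Vx}
    (h : Hit k g C Y) (u : Vx) : ∃ v ∈ Y, ∃ b : Bool, C u < C v + b.toNat * k ∧
      C v + b.toNat * k ≤ C u + g := by
  have hu := hC u
  rcases Nat.lt_or_ge (C u + 1) k with h1 | h1
  · obtain ⟨v, hv, h2⟩ := h (C u + 1) h1
    rcases h2 with h2 | h2
    · exact ⟨v, hv, false, by simp; omega, by simp; omega⟩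
    · exact ⟨v, hv, true, by simp; omega, by simp; omega⟩
  · obtain ⟨v, hv, h2⟩ := h 0 (by omega)
    rcases h2 with h2 | h2
    · exact ⟨v, hv, true, by simp; omega, by simp; omega⟩
    · omega

/-- From the combinatorial data of a limit to a colouring. -/
theorem hit_of_limit {k g : ℕ} (hk : 1 ≤ k) (hg : g ≤ k) {Vs : Type} (F : Vs → ℤ)
    (hF0 : ∀ v, 0 ≤ F v) (hF1 : ∀ v, F v ≤ k) (s : Vs → Vs × Bool) (Y : Set Vs)
    (hs : ∀ u ∈ Y, (s u).1 ∈ Y ∧ F (s u).1 + (s u).2.toNat * (k : ℤ) ≤ F u + g)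
    (C' : Vs → ℕ) (k' : ℕ) (hC' : ∀ v, C' v < k')
    (hs' : ∀ u ∈ Y, C' u < C' (s u).1 + (s u).2.toNat * k') (hY : Y.Nonempty) (y : ℕ)
    (hy : y < k) : ∃ v ∈ Y, W k g y ((F v) % (k : ℤ)).toNat := by
  obtain ⟨u₀, hu₀⟩ := hY
  let u : ℕ → Vs := fun n => (fun a => (s a).1)^[n] u₀
  have hu : ∀ n, u n ∈ Y := by
    intro n
    induction n with
    | zero => exact hu₀
    | succ n ih =>
      simp only [u, Function.iterate_succ_apply']
      exact (hs _ ih).1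
  have hsucc : ∀ n, u (n + 1) = (s (u n)).1 := by
    intro n
    simp only [u, Function.iterate_succ_apply']
  let B : ℕ → ℕ := fun n => ∑ i ∈ Finset.range n, (s (u i)).2.toNat
  have hB : ∀ n, B (n + 1) = B n + (s (u n)).2.toNat := fun n => Finset.sum_range_succ _ _
  let L : ℕ → ℤ := fun n => F (u n) + B n * (k : ℤ)
  have hL : ∀ n, L (n + 1) ≤ L n + g := by
    intro n
    have := (hs _ (hu n)).2
    simp only [L, hB, hsucc]
    push_cast
    linarith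
  have hgrow : ∀ n, n ≤ C' (u n) + B n * k' := by
    intro n
    induction n with
    | zero => omega
    | succ n ih =>
      have := hs' _ (hu n)
      rw [hB, hsucc, add_mul]
      omega
  have hbig : ∃ n, (y : ℤ) + 2 * k ≤ L n := by
    refine ⟨3 * k' + k', ?_⟩
    have h1 := hgrow (3 * k' + k')
    have h2 := hC' (u (3 * k' + k'))
    have hk' : 0 < k' := by omega
    have h3 : 3 ≤ B (3 * k' + k') := by
      by_contra hcon
      have h4 : B (3 * k' + k') ≤ 2 := by omega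
      have : B (3 * k' + k') * k' ≤ 2 * k' := Nat.mul_le_mul_right _ h4
      omega
    have h5 := hF0 (u (3 * k' + k'))
    have h6 : (3 : ℤ) * k ≤ B (3 * k' + k') * (k : ℤ) := by
      have : (3 : ℤ) ≤ (B (3 * k' + k') : ℤ) := by exact_mod_cast h3
      exact mul_le_mul_of_nonneg_right this (by positivity)
    simp only [L]
    have : (y : ℤ) < k := by exact_mod_cast hy
    linarith
  classical
  have h1 := Nat.find_spec hbig
  have h0 : Nat.find hbig ≠ 0 := by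
    intro h
    rw [h] at h1
    have : L 0 = F u₀ := by simp [L, B, u]
    rw [this] at h1
    have := hF1 u₀
    have : (1 : ℤ) ≤ k := by exact_mod_cast hk
    have : (0 : ℤ) ≤ y := by positivity
    linarith
  obtain ⟨j, hj⟩ := Nat.exists_eq_succ_of_ne_zero h0
  have h2 : ¬ (y : ℤ) + 2 * k ≤ L j := Nat.find_min hbig (by omega)
  rw [hj] at h1
  have h3 := hL j
  push Not at h2
  refine ⟨u (j + 1), hu _, ?_⟩
  have h4 : (F (u (j + 1))) % (k : ℤ) = L (j + 1) % (k : ℤ) := by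
    simp only [L]
    rw [Int.add_mul_emod_self_right]
  rw [h4]
  obtain ⟨t, ht⟩ : ∃ t : ℕ, L (j + 1) = y + 2 * k + t :=
    ⟨(L (j + 1) - (y + 2 * k)).toNat, by
      rw [Int.toNat_of_nonneg (by
        have : (j.succ) = j + 1 := rfl
        rw [this] at h1
        linarith)]
      ring⟩
  have htg : t < g := by
    have : (t : ℤ) < g := by rw [ht] at h3; linarith
    exact_mod_cast this
  rw [ht, show (y : ℤ) + 2 * k + t = (y + t : ℤ) + 2 * k by ring, Int.add_mul_emod_self_right]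
  rw [show ((y : ℤ) + t) = ((y + t : ℕ) : ℤ) by push_cast; ring, ← Int.natCast_mod,
    Int.toNat_natCast]
  unfold W
  rcases Nat.lt_or_ge (y + t) k with h | h
  · rw [Nat.mod_eq_of_lt h]
    omega
  · rw [Nat.mod_eq_sub_mod h, Nat.mod_eq_of_lt (by omega)]
    omega

theorem t_v5 (hHIT : SHIT) (hCOL : SCOL) (hINF : SINF) : SV5 := by
  classical
  intro E k d hd hk hE hle
  have hk0 : (0 : ℝ) < k := by exact_mod_cast (by omega : 0 < k)
  have hd0 : (0 : ℝ) < d := by exact_mod_cast (by omega : 0 < d)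
  have hn : ∀ n : ℕ, ∃ k' d' : ℕ, 1 ≤ d' ∧ d' ≤ k' ∧
      (k' : ℝ) < ((k : ℝ) / d + 1 / ((n : ℝ) + 1)) * d' ∧ ∃ c : Vx → ZMod k', IsCol E k' d' c := by
    intro n
    refine hINF E hE _ (lt_of_le_of_lt hle ?_)
    have : (0 : ℝ) < 1 / ((n : ℝ) + 1) := by positivity
    linarith
  choose K D hD hDK hlt c hc using hn
  have hK : ∀ n, 0 < K n := fun n => by have := hD n; have := hDK n; omega
  let Vs := {v : Vx // v ∈ (ends E).toFinset}
  let Cn : ℕ → Vx → ℕ := fun n v => (c n v).val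
  have hCn : ∀ n v, Cn n v < K n := fun n v => by
    have : NeZero (K n) := ⟨(hK n).ne'⟩
    exact ZMod.val_lt _
  have hs : ∀ n, ∃ s : Set Vs → Vs → Vs × Bool, ∀ Y : Set Vs, Cyc E (Subtype.val '' Y) → ∀ u ∈ Y,
      (s Y u).1 ∈ Y ∧ Cn n u.1 < Cn n (s Y u).1.1 + (s Y u).2.toNat * K n ∧
        Cn n (s Y u).1.1 + (s Y u).2.toNat * K n ≤ Cn n u.1 + (K n - D n) := by
    intro n
    have : ∀ (Y : Set Vs) (u : Vs), ∃ p : Vs × Bool, Cyc E (Subtype.val '' Y) → u ∈ Y →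
      p.1 ∈ Y ∧ Cn n u.1 < Cn n p.1.1 + p.2.toNat * K n ∧
        Cn n p.1.1 + p.2.toNat * K n ≤ Cn n u.1 + (K n - D n) := by
      intro Y u
      by_cases h : Cyc E (Subtype.val '' Y)
      · obtain ⟨v, ⟨v', hv', rfl⟩, b, h1, h2⟩ := next_of_hit (Nat.sub_le _ _) (hCn n)
          (cyc_hit hHIT (hD n) (hDK n) (hc n) h) u.1
        exact ⟨(v', b), fun _ _ => ⟨hv', h1, h2⟩⟩
      · exact ⟨(u, false), fun h' => absurd h' h⟩
    choose s hs using this
    exact ⟨s, fun Y hY u hu => hs Y u hY hu⟩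
  choose s hs using hs
  obtain ⟨s₀, hs₀⟩ := Finite.exists_infinite_fiber s
  have hs₀' : {n | s n = s₀}.Infinite := Set.infinite_coe_iff.1 hs₀
  obtain ⟨φ, hφ, hφs⟩ := extraction_of_frequently_atTop (Nat.frequently_atTop_iff_infinite.2 hs₀')
  have hbd : ∀ n, (fun v : Vs => (Cn (φ n) v.1 : ℝ) / K (φ n)) ∈
      Set.pi Set.univ fun _ : Vs => Set.Icc (0 : ℝ) 1 := by
    intro n v _
    have h1 : (0 : ℝ) < K (φ n) := by exact_mod_cast hK _
    refine ⟨by positivity, ?_⟩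
    rw [div_le_one h1]
    exact_mod_cast (hCn (φ n) v.1).le
  obtain ⟨x, hx, ψ, hψ, hlim⟩ := (isCompact_univ_pi fun _ : Vs => isCompact_Icc (a := (0 : ℝ))
    (b := 1)).tendsto_subseq hbd
  have hlim' := tendsto_pi_nhds.1 hlim
  have hineq : ∀ (Y : Set Vs), Cyc E (Subtype.val '' Y) → ∀ u ∈ Y,
      x (s₀ Y u).1 + (s₀ Y u).2.toNat ≤ x u + (1 - (d : ℝ) / k) := by
    intro Y hY u hu
    have t1 : Tendsto (fun n : ℕ => (1 : ℝ) - 1 / ((k : ℝ) / d + 1 / (((φ (ψ n) : ℕ) : ℝ) + 1)))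
        atTop (𝓝 (1 - 1 / ((k : ℝ) / d + 0))) := by
      refine tendsto_const_nhds.sub (Tendsto.div tendsto_const_nhds
        (tendsto_const_nhds.add ?_) (by positivity))
      exact (tendsto_one_div_add_atTop_nhds_zero_nat (𝕜 := ℝ)).comp
        (hφ.tendsto_atTop.comp hψ.tendsto_atTop)
    have e : (1 : ℝ) - 1 / ((k : ℝ) / d + 0) = 1 - (d : ℝ) / k := by
      rw [add_zero, one_div_div]
    rw [e] at t1
    refine le_of_tendsto_of_tendsto' ((hlim' (s₀ Y u).1).add_const _) ((hlim' u).add t1) ?_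
    intro n
    have h := (hs (φ (ψ n)) Y hY u hu).2.2
    rw [hφs (ψ n)] at h
    have h1 : (0 : ℝ) < K (φ (ψ n)) := by exact_mod_cast hK _
    have h2 : ((Cn (φ (ψ n)) (s₀ Y u).1.1 : ℕ) : ℝ) + (s₀ Y u).2.toNat * K (φ (ψ n)) ≤
        Cn (φ (ψ n)) u.1 + (K (φ (ψ n)) - D (φ (ψ n))) := by
      have := hDK (φ (ψ n))
      have h' : ((Cn (φ (ψ n)) (s₀ Y u).1.1 + (s₀ Y u).2.toNat * K (φ (ψ n)) : ℕ) : ℝ) ≤
        ((Cn (φ (ψ n)) u.1 + (K (φ (ψ n)) - D (φ (ψ n))) : ℕ) : ℝ) := by exact_mod_cast h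
      push_cast [Nat.cast_sub this] at h'
      exact h'
    have h3 := hlt (φ (ψ n))
    have h4 : (0 : ℝ) < D (φ (ψ n)) := by
      have := hD (φ (ψ n))
      exact_mod_cast (by omega : 0 < D (φ (ψ n)))
    have h5 : (0 : ℝ) < (k : ℝ) / d + 1 / (((φ (ψ n) : ℕ) : ℝ) + 1) := by positivity
    have h6 : 1 / ((k : ℝ) / d + 1 / (((φ (ψ n) : ℕ) : ℝ) + 1)) ≤
        (D (φ (ψ n)) : ℝ) / K (φ (ψ n)) := by
      rw [div_le_div_iff₀ h5 h1]
      linarith
    show (Cn (φ (ψ n)) (s₀ Y u).1.1 : ℝ) / K (φ (ψ n)) + (s₀ Y u).2.toNat ≤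
      (Cn (φ (ψ n)) u.1 : ℝ) / K (φ (ψ n)) + _
    have h7 : (Cn (φ (ψ n)) (s₀ Y u).1.1 : ℝ) / K (φ (ψ n)) + (s₀ Y u).2.toNat ≤
      (Cn (φ (ψ n)) u.1 : ℝ) / K (φ (ψ n)) + (1 - (D (φ (ψ n)) : ℝ) / K (φ (ψ n))) := by
      rw [show (Cn (φ (ψ n)) (s₀ Y u).1.1 : ℝ) / K (φ (ψ n)) + (s₀ Y u).2.toNat =
        ((Cn (φ (ψ n)) (s₀ Y u).1.1 : ℝ) + (s₀ Y u).2.toNat * K (φ (ψ n))) / K (φ (ψ n)) by
          field_simp,
        show (Cn (φ (ψ n)) u.1 : ℝ) / K (φ (ψ n)) + (1 - (D (φ (ψ n)) : ℝ) / K (φ (ψ n))) =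
        ((Cn (φ (ψ n)) u.1 : ℝ) + (K (φ (ψ n)) - D (φ (ψ n)))) / K (φ (ψ n)) by
          field_simp]
      exact div_le_div_of_nonneg_right h2 h1.le
    linarith
  let F : Vs → ℤ := fun v => ⌊(k : ℝ) * x v⌋
  have hF0 : ∀ v, 0 ≤ F v := fun v => Int.floor_nonneg.2 (mul_nonneg hk0.le (hx v trivial).1)
  have hF1 : ∀ v, F v ≤ k := fun v => by
    have h1 := (hx v trivial).2
    have : (F v : ℝ) ≤ k := (Int.floor_le _).trans (by nlinarith)
    exact_mod_cast this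
  have hFs : ∀ (Y : Set Vs), Cyc E (Subtype.val '' Y) → ∀ u ∈ Y, (s₀ Y u).1 ∈ Y ∧
      F (s₀ Y u).1 + (s₀ Y u).2.toNat * (k : ℤ) ≤ F u + ((k - d : ℕ) : ℤ) := by
    intro Y hY u hu
    refine ⟨?_, ?_⟩
    · have h := (hs (φ 0) Y hY u hu).1
      rw [hφs 0] at h
      exact h
    · have h := hineq Y hY u hu
      have h1 : (k : ℝ) * x (s₀ Y u).1 + (((s₀ Y u).2.toNat * (k : ℤ) : ℤ) : ℝ) ≤
          (k : ℝ) * x u + (((k - d : ℕ) : ℤ) : ℝ) := by
        have h2 := mul_le_mul_of_nonneg_left h hk0.le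
        have h3 : (k : ℝ) * (1 - (d : ℝ) / k) = (((k - d : ℕ) : ℤ) : ℝ) := by
          push_cast [Nat.cast_sub hk.le]
          field_simp
        rw [mul_add, mul_add, h3] at h2
        push_cast at h2 ⊢
        linarith
      have h4 := Int.floor_le_floor h1
      rw [Int.floor_add_intCast, Int.floor_add_intCast] at h4
      exact h4
  refine ⟨_, hCOL E k d (fun v => if h : v ∈ (ends E).toFinset then
    ((F ⟨v, h⟩) % (k : ℤ)).toNat else 0) hd hk.le ?_ ?_⟩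
  · intro v
    have hkz : (0 : ℤ) < k := by exact_mod_cast (by omega : 0 < k)
    by_cases h : v ∈ (ends E).toFinset
    · simp only [h, dif_pos]
      have h1 := Int.emod_lt_of_pos (F ⟨v, h⟩) hkz
      have h2 := Int.emod_nonneg (F ⟨v, h⟩) hkz.ne'
      omega
    · simp only [h, dif_neg, not_false_eq_true]
      omega
  · intro Y hY y hy
    have hYe : Y = Subtype.val '' (Subtype.val ⁻¹' Y : Set Vs) := by
      ext v
      constructor
      · intro hv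
        exact ⟨⟨v, List.mem_toFinset.2 (cyc_sub hY v hv)⟩, hv, rfl⟩
      · rintro ⟨w, hw, rfl⟩
        exact hw
    have hY' : Cyc E (Subtype.val '' (Subtype.val ⁻¹' Y : Set Vs)) := hYe ▸ hY
    have hne : (Subtype.val ⁻¹' Y : Set Vs).Nonempty := by
      obtain ⟨v, hv⟩ := hY.1
      exact ⟨⟨v, List.mem_toFinset.2 (cyc_sub hY v hv)⟩, hv⟩
    obtain ⟨v, hv, hW⟩ := hit_of_limit (by omega) (Nat.sub_le k d) F hF0 hF1
      (s₀ (Subtype.val ⁻¹' Y)) (Subtype.val ⁻¹' Y) (hFs _ hY') (fun v => Cn (φ 0) v.1) (K (φ 0))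
      (fun v => hCn _ _) (fun u hu => by
        have h := (hs (φ 0) _ hY' u hu).2.1
        rw [hφs 0] at h
        exact h) hne y hy
    refine ⟨v.1, hv, ?_⟩
    simp only [v.2, dif_pos]
    exact hW

end Pool.Agent.R554.SDX
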