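import Pool.Agent.R554.SDX.V1b
import Pool.Agent.R554.SDX.V2
import Pool.Agent.R554.SDX.V34
import Pool.Agent.R554.SDX.V5

/-!
# `STAR_p` is in NP for rational `p > 1`
-/

set_option autoImplicit false

namespace Pool.Agent.R554.SDX

open Pool.Agent.NPC Pool.Agent.R539.SD

theorem starNum_le {E : Dg} {k d : ℕ} (hd : 1 ≤ d) (hk : d ≤ k)
    (h : ∃ c : Vx → ZMod k, IsCol E k d c) : starNum E ≤ (k : ℝ) / d := by
  refine csInf_le ⟨0, ?_⟩ ⟨k, d, hd, hk, rfl, h⟩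
  rintro x ⟨k', d', -, -, rfl, -⟩
  positivity

/-- For rational `p = k / d > 1` the problem `STAR_p` is in NP. -/
theorem sRat (hHIT : SHIT) (hCOL : SCOL) (hINF : SINF) : ∀ k d : ℕ, 1 ≤ d → d < k →
    InNPP (Star ((k : ℝ) / d)) := by
  intro k d hd hk
  obtain ⟨p, hp⟩ := t_v4 k
  refine inNPP_of (β := List ℕ) (R := fun x : Dg × List ℕ => chk k d x.1 x.2) (t_v3 k d) p
    fun E => ⟨?_, ?_⟩
  · rintro ⟨hL, hle⟩
    obtain ⟨w, h1, h2, h3⟩ := t_v2 k d E hd hk hL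
      (t_v5 hHIT hCOL hINF E k d hd hk hL hle)
    exact ⟨w, hp E w h1 h2, h3⟩
  · rintro ⟨w, -, h⟩
    obtain ⟨h1, h2⟩ := t_v1 k d E w hd hk h
    exact ⟨h1, starNum_le hd hk.le h2⟩

/-- The same for rational numbers. -/
theorem sRatQ (hHIT : SHIT) (hCOL : SCOL) (hINF : SINF) (q : ℚ) (hq : 1 < q) :
    InNPP (Star (q : ℝ)) := by
  have hn : (0 : ℤ) < q.num := Rat.num_pos.2 (by linarith)
  obtain ⟨k, hk⟩ := Int.eq_ofNat_of_zero_le hn.le
  have e : (q : ℚ) = (k : ℚ) / q.den := by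
    rw [← Rat.num_div_den q]
    congr 1
    · rw [hk]
      simp [Rat.num_div_den]
    · simp [Rat.num_div_den]
  have hlt : q.den < k := by
    have hd : (0 : ℚ) < q.den := by exact_mod_cast q.den_pos
    rw [e, lt_div_iff₀ hd, one_mul] at hq
    exact_mod_cast hq
  have e' : ((q : ℚ) : ℝ) = (k : ℝ) / q.den := by
    have := congrArg (fun x : ℚ => (x : ℝ)) e
    simp only [Rat.cast_div, Rat.cast_natCast] at this
    exact this
  rw [e']
  exact sRat hHIT hCOL hINF k q.den q.den_pos hlt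

end Pool.Agent.R554.SDX
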