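import Pool.Agent.R539.SD.Defs
import Pool.Agent.NPC.Sat2

/-!
# `STAR_p` is in NP for rational `p`: statements of the pieces
-/

set_option autoImplicit false

namespace Pool.Agent.R554.SDX

open Pool.Agent.NPC Pool.Agent.R539.SD

/-- All ends of arcs. -/
def ends (E : Dg) : List Vx := E.flatMap fun e => [e.1, e.2]

/-- Entry number `j ≤ k` of the record of `v` in the certificate: entry `k` is the colour, entry
`i < k` is the rank of `v` for the window that starts at `i`. -/
noncomputable def ent (k : ℕ) (E : Dg) (w : List ℕ) (v : Vx) (j : ℕ) : ℕ :=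
  w.getD (index (ends E) v * (k + 1) + j) 0

/-- The colour `a` lies in the window `i, ..., i + d - 1` modulo `k` (for `i < k`). -/
def inW (k d i a : ℕ) : Bool := decide ((a + (k - i)) % k < d)

/-- The test of the certificate. -/
noncomputable def chk (k d : ℕ) (E : Dg) (w : List ℕ) : Bool :=
  E.all fun e => !(decide (e.1 = e.2)) && (List.range k).all fun i =>
    !(inW k d i (ent k E w e.1 k) && inW k d i (ent k E w e.2 k)) ||
      decide (ent k E w e.1 i < ent k E w e.2 i)

/-- (V1) Soundness. -/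
def SV1 : Prop := ∀ (k d : ℕ) (E : Dg) (w : List ℕ), 1 ≤ d → d < k → chk k d E w = true →
  Loopless E ∧ ∃ c : Vx → ZMod k, IsCol E k d c

/-- (V2) Completeness. -/
def SV2 : Prop := ∀ (k d : ℕ) (E : Dg), 1 ≤ d → d < k → Loopless E →
  (∃ c : Vx → ZMod k, IsCol E k d c) → ∃ w : List ℕ, w.length ≤ 2 * E.length * (k + 1) ∧
    (∀ x ∈ w, x ≤ 2 * E.length + k) ∧ chk k d E w = true

/-- (V3) The test is polynomial. -/
def SV3 : Prop := ∀ k d : ℕ, NPC.Poly (fun x : Dg × List ℕ => chk k d x.1 x.2)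

/-- (V4) The size of the certificates. -/
def SV4 : Prop := ∀ k : ℕ, ∃ p : Polynomial ℕ, ∀ (E : Dg) (w : List ℕ),
  w.length ≤ 2 * E.length * (k + 1) → (∀ x ∈ w, x ≤ 2 * E.length + k) → sz w ≤ p.eval (sz E)

/-- (V5) The infimum is attained for rational bounds. -/
def SV5 : Prop := ∀ (E : Dg) (k d : ℕ), 1 ≤ d → d < k → Loopless E →
  starNum E ≤ (k : ℝ) / (d : ℝ) → ∃ c : Vx → ZMod k, IsCol E k d c

end Pool.Agent.R554.SDX
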