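import Pool.Agent.R554.SDX.Stm

/-! Soundness of the NP certificate for `STAR_p` (helper84). -/

set_option autoImplicit false

namespace Pool.Agent.R554.SDX

open Pool.Agent.NPC Pool.Agent.R539.SD

theorem t_v1 : SV1 := by
  intro k d E w hd hk hchk
  have hk0 : 0 < k := by omega
  have hne : NeZero k := ⟨by omega⟩
  unfold chk at hchk
  rw [List.all_eq_true] at hchk
  have h1 : ∀ e ∈ E, e.1 ≠ e.2 := by
    intro e he heq
    have h0 := hchk e he
    rw [Bool.and_eq_true] at h0
    have h := h0.1
    rw [Bool.not_eq_true', decide_eq_false_iff_not] at h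
    exact h heq
  have h2 : ∀ e ∈ E, ∀ i < k, inW k d i (ent k E w e.1 k) = true →
      inW k d i (ent k E w e.2 k) = true → ent k E w e.1 i < ent k E w e.2 i := by
    intro e he i hi ha hb
    have h0 := hchk e he
    rw [Bool.and_eq_true] at h0
    have h := h0.2
    rw [List.all_eq_true] at h
    have h := h i (List.mem_range.2 hi)
    rw [Bool.or_eq_true] at h
    rcases h with h | h
    · rw [ha, hb] at h
      simp at h
    · exact of_decide_eq_true h
  refine ⟨h1, fun v => (ent k E w v k : ZMod k), ?_⟩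
  intro i v hv
  have hiv : i.val < k := ZMod.val_lt i
  have key : ∀ a : ℕ, (∃ t : ℕ, t < d ∧ (a : ZMod k) = i + (t : ZMod k)) →
      inW k d i.val a = true := by
    rintro a ⟨t, ht, hat⟩
    unfold inW
    apply decide_eq_true
    have h3 : ((a + (k - i.val) : ℕ) : ZMod k) = (t : ZMod k) := by
      rw [Nat.cast_add, Nat.cast_sub hiv.le, hat, ZMod.natCast_self, ZMod.natCast_val,
        ZMod.cast_id', id_eq]
      ring
    have h4 := (ZMod.natCast_eq_natCast_iff' _ _ _).1 h3
    rw [h4, Nat.mod_eq_of_lt (by omega)]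
    exact ht
  have mono : ∀ u : Vx, Relation.TransGen (fun a b : Vx => (a, b) ∈ E ∧
      a ∈ {v : Vx | ∃ t : ℕ, t < d ∧ (ent k E w v k : ZMod k) = i + (t : ZMod k)} ∧
      b ∈ {v : Vx | ∃ t : ℕ, t < d ∧ (ent k E w v k : ZMod k) = i + (t : ZMod k)}) v u →
      ent k E w v i.val < ent k E w u i.val := by
    intro u h
    induction h with
    | single h => exact h2 _ h.1 _ hiv (key _ h.2.1) (key _ h.2.2)
    | tail _ h ih => exact ih.trans (h2 _ h.1 _ hiv (key _ h.2.1) (key _ h.2.2))
  exact lt_irrefl _ (mono v hv)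

end Pool.Agent.R554.SDX
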